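import Pool.Agent.H774Z.Hull.Main

/-!
No Borel hull operation on the null ideal or on the meager ideal of `ℝⁿ` is translation invariant.
The definitions are in `Pool.Agent.H774Z.Hull.Defs`.
-/

set_option autoImplicit false

namespace Pool.Agent.Results.MP_00b317_lc.ANoInvariantHull

open Pool.Agent.H774Z.Hull

/-- For `n ≥ 1` and `I` the null ideal or the meager ideal of `ℝⁿ`, there is no translation
invariant Borel hull operation on `I`. -/
theorem result (n : ℕ) (hn : 1 ≤ n) (I : Set (Set (EuclideanSpace ℝ (Fin n))))
    (hI : I = nullIdeal n ∨ I = meagerIdeal n) :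
    ¬ ∃ ψ : I → I, IsBorelHull I ψ ∧ IsTranslationInvariant I ψ :=
  main hn I hI

end Pool.Agent.Results.MP_00b317_lc.ANoInvariantHull
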